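import Pool.Agent.N396.ZK.Stm2
import Pool.Agent.N396.ZK.Comb

/-!
Project ZK2: the Kovari-Sos-Turan inequality for a set of rows.
-/

set_option autoImplicit false

namespace Pool.Agent.N547.ZK

open Finset Classical Pool.Agent.N396.ZK

theorem kst : StmKST := by
  intro α β _ R H s t D C hs hD hC hDn hL
  set n := Fintype.card β with hn
  set z : β → ℕ := fun y => (s1 R H y).card with hz
  have h1 : ∑ y, (z y).choose s ≤ t * (H.card).choose s := by
    have h := mom1 R H univ s
    rw [hz, ← h]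
    calc ∑ A ∈ H.powersetCard s, (com R univ A).card ≤ ∑ A ∈ H.powersetCard s, t := by
          refine sum_le_sum fun A hA => ?_
          rw [mem_powersetCard] at hA
          exact hL A hA.1 hA.2
      _ = _ := by rw [sum_const, card_powersetCard, smul_eq_mul, mul_comm]
  have h2 : ∑ y, (z y - (s - 1)) ^ s ≤ t * H.card ^ s := by
    calc ∑ y, (z y - (s - 1)) ^ s ≤ ∑ y, s.factorial * (z y).choose s := by
          refine sum_le_sum fun y _ => ?_
          rw [← Nat.descFactorial_eq_factorial_mul_choose]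
          have h := Nat.pow_sub_le_descFactorial (z y) s
          have e : z y + 1 - s = z y - (s - 1) := by omega
          rwa [e] at h
      _ = s.factorial * ∑ y, (z y).choose s := by rw [mul_sum]
      _ ≤ s.factorial * (t * (H.card).choose s) := Nat.mul_le_mul_left _ h1
      _ = t * (H.card).descFactorial s := by
          rw [Nat.descFactorial_eq_factorial_mul_choose]; ring
      _ ≤ t * H.card ^ s := Nat.mul_le_mul_left _ (Nat.descFactorial_le_pow _ _)
  have h3 : (∑ y, ((z y - (s - 1) : ℕ) : ℝ)) ≤ C * D * H.card := by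
    have hn0 : (0 : ℝ) ≤ n := Nat.cast_nonneg _
    have h4 := pow_sum_le_card_mul_sum_pow (s := (univ : Finset β))
      (f := fun y => ((z y - (s - 1) : ℕ) : ℝ)) (fun y _ => Nat.cast_nonneg _) (s - 1)
    rw [Nat.sub_add_cancel hs, card_univ] at h4
    have h5 : (∑ y, ((z y - (s - 1) : ℕ) : ℝ) ^ s) ≤ t * (H.card : ℝ) ^ s := by
      exact_mod_cast h2
    have h7 : (∑ y, ((z y - (s - 1) : ℕ) : ℝ)) ^ s ≤ (C * D * H.card) ^ s := by
      calc (∑ y, ((z y - (s - 1) : ℕ) : ℝ)) ^ s ≤
          (n : ℝ) ^ (s - 1) * ∑ y, ((z y - (s - 1) : ℕ) : ℝ) ^ s := h4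
        _ ≤ (n : ℝ) ^ (s - 1) * (t * (H.card : ℝ) ^ s) := by gcongr
        _ = (t * (n : ℝ) ^ (s - 1)) * (H.card : ℝ) ^ s := by ring
        _ ≤ (C * D) ^ s * (H.card : ℝ) ^ s := by gcongr
        _ = (C * D * H.card) ^ s := by rw [mul_pow (C * D)]
    exact le_of_pow_le_pow_left₀ (by omega) (by positivity) h7
  have h12 : ∑ x ∈ H, ((row R univ x).card : ℝ) = ∑ y, (z y : ℝ) := by
    have h13 : ∑ x ∈ H, (row R univ x).card = ∑ y, z y := by
      have e1 : ∀ x, (row R univ x).card = ∑ y : β, if R x y then 1 else 0 := by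
        intro x
        unfold row
        rw [card_filter]
      have e2 : ∀ y, z y = ∑ x ∈ H, if R x y then 1 else 0 := by
        intro y
        rw [hz]
        simp only [s1]
        rw [card_filter]
      simp only [e1, e2]
      rw [sum_comm]
    exact_mod_cast h13
  rw [h12]
  have h9 : ∀ y ∈ (univ : Finset β), (z y : ℝ) ≤ ((z y - (s - 1) : ℕ) : ℝ) + s := by
    intro y _
    have h10 : z y ≤ (z y - (s - 1)) + s := by omega
    exact_mod_cast h10
  calc (∑ y, (z y : ℝ)) ≤ ∑ y, (((z y - (s - 1) : ℕ) : ℝ) + s) := sum_le_sum h9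
    _ = (∑ y, ((z y - (s - 1) : ℕ) : ℝ)) + s * n := by
        rw [sum_add_distrib, sum_const, nsmul_eq_mul, card_univ]
        ring
    _ ≤ C * D * H.card + s * n := by gcongr

end Pool.Agent.N547.ZK
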