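import Pool.Agent.N396.ZK.Stm2
import Pool.Agent.N603.ZK.Graph

/-!
Project ZK2: from matrices to graphs.
-/

set_option autoImplicit false

namespace Pool.Agent.N547.ZK

open Finset Classical Pool.Agent.N396.ZK Pool.Agent.N603.ZK

theorem lpg (h : StmLPZ) : StmLPG := by
  intro s t k μ a hst hk hks hμ hLP
  have hs : 2 ≤ s := by omega
  have ht : 1 ≤ t := by omega
  obtain ⟨K, hK, h⟩ := h s t k μ a hst hk hks hμ hLP
  have hs0 : (0:ℝ) < s := by exact_mod_cast (by omega : 0 < s)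
  refine ⟨⌈max K (K ^ s)⌉₊ + 1, fun n hn => ?_⟩
  have hn1 : max K (K ^ s) ≤ n := by
    refine (Nat.le_ceil _).trans ?_
    exact_mod_cast (by omega : ⌈max K (K ^ s)⌉₊ ≤ n)
  have hn0 : 0 < n := by omega
  have hn' : (0:ℝ) < n := by exact_mod_cast hn0
  have hKn : K ≤ n := (le_max_left _ _).trans hn1
  have hKs : K ≤ (n:ℝ) ^ (1 / (s:ℝ)) := by
    have h1 : K ^ s ≤ n := (le_max_right _ _).trans hn1
    have h2 : (K ^ s) ^ (1 / (s:ℝ)) = K := by
      rw [one_div]
      exact Real.pow_rpow_inv_natCast hK.le (by omega)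
    calc K = (K ^ s) ^ (1 / (s:ℝ)) := h2.symm
      _ ≤ (n:ℝ) ^ (1 / (s:ℝ)) := Real.rpow_le_rpow (by positivity) h1 (by positivity)
  have hKn2 : K * (n:ℝ) ^ (1 - 1 / (s:ℝ)) ≤ n := by
    calc K * (n:ℝ) ^ (1 - 1 / (s:ℝ)) ≤ (n : ℝ) ^ (1 / (s : ℝ)) * (n : ℝ) ^ (1 - 1 / (s : ℝ)) :=
          mul_le_mul_of_nonneg_right hKs (by positivity)
      _ = n := pow_split hn0
  have hmain : ∀ (G : SimpleGraph (Fin n)) [DecidableRel G.Adj],
      (completeBipartiteGraph (Fin s) (Fin t)).Free G →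
      (G.edgeFinset.card : ℝ) ≤ μ ^ (1 / (s : ℝ)) / 2 * (n : ℝ) ^ (2 - 1 / (s : ℝ)) := by
    intro G _ hG
    have h4 := h (Fin n) (Fin n) G.Adj (by rwa [Fintype.card_fin]) (by rwa [Fintype.card_fin])
      (fun A hA => com_lt (fun A B hA hB => by
        by_contra hc
        push Not at hc
        apply hG
        rw [SimpleGraph.completeBipartiteGraph_isContained_iff]
        refine ⟨A, B, by rw [hA, Fintype.card_fin], by rw [hB, Fintype.card_fin], ?_⟩
        intro a ha b hb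
        exact hc a ha b hb) A hA)
    rw [Fintype.card_fin] at h4
    have h5 : ∑ x, ((row G.Adj univ x).card : ℝ) = 2 * (G.edgeFinset.card : ℝ) := by
      have h6 := G.sum_degrees_eq_twice_card_edges
      have h7 : ∀ x, (row G.Adj univ x).card = G.degree x := by
        intro x
        rw [← G.card_neighborFinset_eq_degree]
        congr 1
        ext y
        unfold row
        simp
      simp_rw [h7]
      exact_mod_cast h6
    rw [h5] at h4
    have h8 : (n : ℝ) ^ (2 - 1 / (s : ℝ)) = n * (n : ℝ) ^ (1 - 1 / (s : ℝ)) := by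
      rw [← Real.rpow_one_add' hn'.le]
      · congr 1; ring
      · have : 1 / (s:ℝ) ≤ 1 := by
          rw [div_le_one hs0]
          exact_mod_cast (by omega : 1 ≤ s)
        linarith
    rw [h8]
    linarith
  have h0' : (0:ℝ) ≤ μ ^ (1 / (s : ℝ)) / 2 * (n : ℝ) ^ (2 - 1 / (s : ℝ)) := by positivity
  have h9 := (SimpleGraph.extremalNumber_le_iff_of_nonneg (V := Fin n) (completeBipartiteGraph (Fin s) (Fin t)) h0').mpr
    (fun G _ hG => hmain G hG)
  rw [Fintype.card_fin] at h9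
  exact h9

end Pool.Agent.N547.ZK
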